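import Pool.Agent.Helper67.TQ.Geo2

/-!
# Two quadratic polynomials and a constant: families over curves
-/

set_option autoImplicit false

namespace Pool.Agent.Helper9.TQ2

open Pool.Agent.Helper29.CQ Pool.Agent.Helper65.CC Pool.Agent.Helper87.CC
  Pool.Agent.Helper65.CC.KFn
open Pool.Agent.Helper29.PF (pw pwZero pwSucc rp_pw Zf rep_Zf mem_Zf Pk kops ftZ char0)
open Pool.Agent.Helper67.TQ
open Polynomial

variable {p : ℕ} {P : ∀ (A : Type) [CommRing A], Prop} {k : Type} [Field k]

/-- `∑ γ_l(y) q_l(x)` -/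
noncomputable def fqC {F : KFn k} {N m : ℕ} (γ : Fin m → Coord F)
    (q : Fin m → MvPolynomial (Fin N) k) : Coord (pw F N) where
  val {R} _ _ x := ∑ l, (γ l).val x.1 * MvPolynomial.aeval (R := k) (x.2 : Fin N → R) (q l)
  nat f x := by
    rw [map_sum]
    refine Finset.sum_congr rfl fun l _ => ?_
    rw [map_mul, (γ l).nat]
    congr 1
    exact MvPolynomial.comp_aeval_apply (R := k) _ f (q l)

/-- the family of quadrics `∑ γ_l(y) q_l(x) = 0` -/
noncomputable def FQ (F : KFn k) {N m : ℕ} (γ : Fin m → Coord F)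
    (q : Fin m → MvPolynomial (Fin N) k) : KFn k := (pw F N).cls (fqC γ q)

instance (F : KFn k) [Rp F] {N m : ℕ} (γ : Fin m → Coord F) (q : Fin m → MvPolynomial (Fin N) k) :
    Rp (FQ F γ q) := by
  have := rp_pw F N
  unfold FQ
  infer_instance

/-- **families over curves** -/
theorem fq_curve [Finite k] (hp : p.Prime) (hP : FormalClass p P) (hk : (p : k) = 0) {F : KFn k}
    {A : Type} [CommRing A] [Algebra k A] {a : F.obj A} (hft : Algebra.FiniteType k A)
    (ha : F.Rep A a) (hdim : ringKrullDim A ≤ 1) {N m : ℕ} (γ : Fin m → Coord F)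
    (q : Fin m → MvPolynomial (Fin N) k) (hq : ∀ l, (q l).totalDegree ≤ 2) :
    (FQ F γ q).Mem (Pk P k) := by
  classical
  obtain ⟨b, hb⟩ := (rep_pw ha N).cls (fqC γ q)
  refine Mem.of_rep (kops hP hk) hb ?_
  have e1 : (fqC γ q).val (R := MvPolynomial (Fin N) A)
      (F.map (IsScalarTower.toAlgHom k A (MvPolynomial (Fin N) A)) a,
      (MvPolynomial.X : Fin N → MvPolynomial (Fin N) A)) =
      (∑ l, MvPolynomial.C ((γ l).val a) * MvPolynomial.map (algebraMap k A) (q l) :
        MvPolynomial (Fin N) A) := by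
    change ∑ l, (γ l).val (F.map (IsScalarTower.toAlgHom k A (MvPolynomial (Fin N) A)) a) *
      MvPolynomial.aeval (R := k) (MvPolynomial.X : Fin N → MvPolynomial (Fin N) A) (q l) = _
    refine Finset.sum_congr rfl fun l _ => ?_
    rw [← (γ l).nat]
    congr 1
    change MvPolynomial.eval₂ (algebraMap k (MvPolynomial (Fin N) A)) MvPolynomial.X (q l) = _
    rw [IsScalarTower.algebraMap_eq k A (MvPolynomial (Fin N) A), MvPolynomial.algebraMap_eq,
      ← MvPolynomial.eval₂_map, MvPolynomial.eval₂_eta]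
  change P (MvPolynomial (Fin N) A ⧸ Ideal.span {(fqC γ q).val (R := MvPolynomial (Fin N) A)
    (F.map (IsScalarTower.toAlgHom k A
    (MvPolynomial (Fin N) A)) a, (MvPolynomial.X : Fin N → MvPolynomial (Fin N) A))})
  rw [e1]
  have h1 := tameClosed_tame.lowDegree A (ftZ hft) (by
    intro q hq hlt
    exfalso
    have h2 : ringKrullDim (A ⧸ q) ≤ ringKrullDim A :=
      ringKrullDim_le_of_surjective (Ideal.Quotient.mk q) Ideal.Quotient.mk_surjective
    exact absurd (hlt.trans_le (h2.trans hdim)) (lt_irrefl _)) N ∅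
    {(∑ l, MvPolynomial.C ((γ l).val a) * MvPolynomial.map (algebraMap k A) (q l) :
      MvPolynomial (Fin N) A)} (by simp)
    (by
      intro q' hq'
      rw [Finset.mem_singleton] at hq'
      rw [hq']
      refine MvPolynomial.totalDegree_finsetSum_le fun l _ => ?_
      refine (MvPolynomial.totalDegree_mul _ _).trans ?_
      rw [MvPolynomial.totalDegree_C, zero_add]
      exact (Finset.sup_mono (MvPolynomial.support_map_subset _ _)).trans (hq l))
    (by
      rw [Finset.card_singleton]
      calc ringKrullDim A + ((1 : ℕ) : WithBot ℕ∞) ≤ 1 + 1 := add_le_add hdim le_rfl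
        _ = 2 := by norm_num)
  rw [Finset.coe_empty, Set.empty_union, Finset.coe_singleton] at h1
  refine Pool.Agent.Helper67.CQ.of_tame hp hP h1 ?_
  rw [← map_natCast (algebraMap A _), char0 hk, map_zero]

end Pool.Agent.Helper9.TQ2
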