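import Pool.Agent.Helper9.TQ2.Tor
import Pool.Agent.Helper29.PF.QJoin2

/-!
# Sums of squares over curves on the torus
-/

set_option autoImplicit false

namespace Pool.Agent.Helper9.TQ2

open Pool.Agent.Helper29.CQ Pool.Agent.Helper65.CC Pool.Agent.Helper87.CC
  Pool.Agent.Helper65.CC.KFn
open Pool.Agent.Helper29.PF (pw pwZero pwSucc rp_pw Zf rep_Zf mem_Zf Pk kops ftZ char0 SQ QJ SqMem
  qjoin)
open Pool.Agent.Helper67.TQ
open MvPolynomial (X C)

variable {p : ℕ} {P : ∀ (A : Type) [CommRing A], Prop}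

section

variable {k : Type} [Field k]

/-- the constant coordinate -/
def oneC (F : KFn k) : Coord F := ⟨fun _ => 1, fun f _ => map_one f⟩

/-- the diagonal quadratic polynomial -/
noncomputable def sqP {m : ℕ} (δ : Fin m → k) (ε : k) : MvPolynomial (Fin m) k :=
  ∑ i, C (δ i) * X i ^ 2 + C ε

theorem sqP_deg {m : ℕ} (δ : Fin m → k) (ε : k) : (sqP δ ε).totalDegree ≤ 2 := by
  refine (MvPolynomial.totalDegree_add _ _).trans (max_le ?_ ?_)
  · refine MvPolynomial.totalDegree_finsetSum_le fun i _ => ?_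
    refine (MvPolynomial.totalDegree_mul _ _).trans ?_
    rw [MvPolynomial.totalDegree_C, zero_add]
    exact (MvPolynomial.totalDegree_X_pow _ _).le
  · rw [MvPolynomial.totalDegree_C]
    exact Nat.zero_le _

theorem sqP_val {m : ℕ} (δ : Fin m → k) (ε : k) {R : Type} [CommRing R] [Algebra k R]
    (x : Fin m → R) : MvPolynomial.aeval (R := k) x (sqP δ ε) =
      ∑ i, algebraMap k R (δ i) * x i ^ 2 + algebraMap k R ε := by
  unfold sqP
  rw [map_add, map_sum, MvPolynomial.aeval_C]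
  congr 1
  refine Finset.sum_congr rfl fun i _ => ?_
  rw [map_mul, map_pow, MvPolynomial.aeval_C, MvPolynomial.aeval_X]

/-- `∑ δ_i x_i ^ 2 + ε = z ^ C r ^ E` -/
noncomputable def CN (A B C' E : ℤ) {m : ℕ} (δ : Fin m → k) (ε : k) : KFn k :=
  FQ (FT A B 1) ![oneC _, chT C' E] ![sqP δ ε, MvPolynomial.C (-1)]

theorem cn_val {A B C' E : ℤ} {m : ℕ} (δ : Fin m → k) (ε : k) {R : Type} [CommRing R]
    [Algebra k R] (y : (FT (K := k) A B 1).obj R) (x : Fin m → R) :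
    (fqC (F := FT (K := k) A B 1) ![oneC _, chT C' E] ![sqP δ ε, MvPolynomial.C (-1)]).val
      (R := R) (y, x) = 0 ↔
      ∑ i, algebraMap k R (δ i) * x i ^ 2 + algebraMap k R ε =
        ((y.1.1 ^ C' * y.1.2 ^ E : Rˣ) : R) := by
  change (∑ l : Fin 2, ((![oneC _, chT C' E] : Fin 2 → Coord (FT (K := k) A B 1)) l).val y *
    MvPolynomial.aeval (R := k) x ((![sqP δ ε, MvPolynomial.C (-1)] :
      Fin 2 → MvPolynomial (Fin m) k) l)) = 0 ↔ _
  rw [Fin.sum_univ_two]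
  change 1 * MvPolynomial.aeval (R := k) x (sqP δ ε) + ((y.1.1 ^ C' * y.1.2 ^ E : Rˣ) : R) *
    MvPolynomial.aeval (R := k) x (MvPolynomial.C (-1)) = 0 ↔ _
  generalize ((y.1.1 ^ C' * y.1.2 ^ E : Rˣ) : R) = w
  rw [sqP_val, MvPolynomial.aeval_C, map_neg, map_one, one_mul, mul_neg, mul_one, ← sub_eq_add_neg,
    sub_eq_zero]

theorem cn_mem [Finite k] (hp : p.Prime) (hP : FormalClass p P) (hk : (p : k) = 0)
    {a b a' b' : ℕ} (h : ¬ (a = a' ∧ b = b')) (C' E : ℤ) {m : ℕ} (δ : Fin m → k) (ε : k) :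
    (CN ((a : ℤ) - a') ((b : ℤ) - b') C' E δ ε).Mem (Pk P k) := by
  obtain ⟨A, _, _, pt, h1, h2, h3⟩ := ft_rep (K := k) h
  refine fq_curve hp hP hk h1 h2 h3 _ _ fun l => ?_
  fin_cases l
  · exact sqP_deg δ ε
  · change (MvPolynomial.C (-1 : k) : MvPolynomial (Fin m) k).totalDegree ≤ 2
    rw [MvPolynomial.totalDegree_C]
    exact Nat.zero_le _

theorem ft_mem [Finite k] (hP : FormalClass p P) (hk : (p : k) = 0)
    {a b a' b' : ℕ} (h : ¬ (a = a' ∧ b = b')) :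
    (FT ((a : ℤ) - a') ((b : ℤ) - b') (1 : kˣ)).Mem (Pk P k) := by
  obtain ⟨A, _, _, pt, h1, h2, h3⟩ := ft_rep (K := k) h
  exact Mem.of_rep (kops hP hk) h2 (hP.curve A (ftZ h1) (char0 hk) h3)

end

/-! ### Scaling -/

section

variable {k : Type} [Field k] {K : Type} [Field K] [Algebra k K]

theorem scale_inv {A B : ℤ} {c lam mu : Kˣ} (h : lam ^ A * mu ^ B = c) {R : Type} [CommRing R]
    [Algebra K R] {z r : Rˣ} (hzr : z ^ A * r ^ B = cu K R c) :
    ((cu K R lam)⁻¹ * z) ^ A * ((cu K R mu)⁻¹ * r) ^ B = 1 := by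
  rw [mul_zpow, mul_zpow, inv_zpow, inv_zpow, mul_mul_mul_comm, hzr, ← h, map_mul, map_zpow,
    map_zpow, ← mul_inv, inv_mul_cancel]

theorem scale_hom {A B : ℤ} {c lam mu : Kˣ} (h : lam ^ A * mu ^ B = c) {R : Type} [CommRing R]
    [Algebra K R] {z r : Rˣ} (hzr : z ^ A * r ^ B = 1) :
    (cu K R lam * z) ^ A * (cu K R mu * r) ^ B = cu K R c := by
  rw [mul_zpow, mul_zpow, mul_mul_mul_comm, hzr, mul_one, ← map_zpow, ← map_zpow, ← map_mul, h]

theorem one_down {R : Type} [CommRing R] [Algebra k R] {w : Rˣ} :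
    w = cu k R 1 ↔ w = 1 := by rw [map_one]

/-- scaling of the curve -/
noncomputable def ftScale {A B : ℤ} {c lam mu : Kˣ} (h : lam ^ A * mu ^ B = c) :
    Iso (FT A B c) (ext K (FT (K := k) A B 1)) where
  hom {R} _ _ x := ⟨((cu K R lam)⁻¹ * x.1.1, (cu K R mu)⁻¹ * x.1.2),
    (@one_down k _ R _ (down k K R) _).2 (scale_inv h x.2)⟩
  inv {R} _ _ y := ⟨(cu K R lam * y.1.1, cu K R mu * y.1.2),
    scale_hom h ((@one_down k _ R _ (down k K R) _).1 y.2)⟩
  inv_hom {R} _ _ x := Subtype.ext (Prod.ext (mul_inv_cancel_left _ _) (mul_inv_cancel_left _ _))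
  hom_inv {R} _ _ y := Subtype.ext (Prod.ext (inv_mul_cancel_left _ _) (inv_mul_cancel_left _ _))
  nat {R S} _ _ _ _ f x := by
    refine Subtype.ext (Prod.ext ?_ ?_)
    · change um f ((cu K R lam)⁻¹ * x.1.1) = (cu K S lam)⁻¹ * um f x.1.1
      rw [map_mul, map_inv, um_cu]
    · change um f ((cu K R mu)⁻¹ * x.1.2) = (cu K S mu)⁻¹ * um f x.1.2
      rw [map_mul, map_inv, um_cu]

/-- the value of the equation -/
def vT {A B : ℤ} {c : Kˣ} (κ : K) (C' E : ℤ) : Coord (FT (K := K) A B c) where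
  val {R} _ _ x := algebraMap K R κ * ((x.1.1 ^ C' * x.1.2 ^ E : Rˣ) : R)
  nat {R S} _ _ _ _ f x := by
    rw [map_mul, f.commutes]
    congr 1
    exact (chT (A := A) (B := B) (c := c) C' E).nat f x

theorem sq_iff {C' E : ℤ} {m : ℕ} {c δ' : Fin m → K} {e ε' κ : K} {e' lam mu : Kˣ}
    {dd : Fin m → Kˣ} (hd : ∀ i, c i * (dd i : K) ^ 2 = e' * δ' i) (he : e = e' * ε')
    (hκ : κ * ((lam ^ C' * mu ^ E : Kˣ) : K) = e') {R : Type} [CommRing R] [Algebra K R]
    (z r : Rˣ) (y : Fin m → R) :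
    (∑ i, algebraMap K R (c i) * (algebraMap K R (dd i : K) * y i) ^ 2 + algebraMap K R e =
      algebraMap K R κ * (((cu K R lam * z) ^ C' * (cu K R mu * r) ^ E : Rˣ) : R)) ↔
    (∑ i, algebraMap K R (δ' i) * y i ^ 2 + algebraMap K R ε' =
      ((z ^ C' * r ^ E : Rˣ) : R)) := by
  have h1 : ∑ i, algebraMap K R (c i) * (algebraMap K R (dd i : K) * y i) ^ 2 + algebraMap K R e =
      algebraMap K R (e' : K) * (∑ i, algebraMap K R (δ' i) * y i ^ 2 + algebraMap K R ε') := by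
    rw [mul_add, Finset.mul_sum, he, map_mul]
    congr 1
    refine Finset.sum_congr rfl fun i _ => ?_
    rw [mul_pow, ← mul_assoc, ← mul_assoc, ← map_pow, ← map_mul, ← map_mul, hd]
  have h2 : algebraMap K R κ * (((cu K R lam * z) ^ C' * (cu K R mu * r) ^ E : Rˣ) : R) =
      algebraMap K R (e' : K) * ((z ^ C' * r ^ E : Rˣ) : R) := by
    rw [mul_zpow, mul_zpow, mul_mul_mul_comm, ← map_zpow, ← map_zpow, ← map_mul, Units.val_mul,
      ← mul_assoc]
    congr 1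
    rw [← hκ, map_mul (algebraMap K R) κ]
    rfl
  rw [h1, h2]
  exact ((e'.isUnit.map (algebraMap K R)).mul_right_inj)

/-- scaling of the equation -/
noncomputable def sqScale {A B C' E : ℤ} {m : ℕ} {c : Fin m → K} {c0 : Kˣ} {δ : Fin m → k}
    {e κ : K} {ε : k} {e' lam mu : Kˣ} {dd : Fin m → Kˣ} (h : lam ^ A * mu ^ B = c0)
    (hd : ∀ i, c i * (dd i : K) ^ 2 = e' * algebraMap k K (δ i)) (he : e = e' * algebraMap k K ε)
    (hκ : κ * ((lam ^ C' * mu ^ E : Kˣ) : K) = e') :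
    Iso (SQ (vT (A := A) (B := B) (c := c0) κ C' E) c e) (ext K (CN A B C' E δ ε)) where
  hom {R} _ _ x := ⟨((ftScale h).hom x.1.1, fun i => algebraMap K R ((dd i)⁻¹ : Kˣ) * x.1.2 i), by
    refine (@cn_val k _ A B C' E m δ ε R _ (down k K R) _ _).2 ((sq_iff hd he hκ _ _ _).1 ?_)
    have h1 : ∑ i, algebraMap K R (c i) * x.1.2 i ^ 2 + algebraMap K R e =
      algebraMap K R κ * ((x.1.1.1.1 ^ C' * x.1.1.1.2 ^ E : Rˣ) : R) := x.2
    have h2 : ∀ i, algebraMap K R (dd i : K) * (algebraMap K R ((dd i)⁻¹ : Kˣ) * x.1.2 i) =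
        x.1.2 i := by
      intro i
      rw [← mul_assoc, ← map_mul, ← Units.val_mul, mul_inv_cancel, Units.val_one, map_one, one_mul]
    have h3 : cu K R lam * ((cu K R lam)⁻¹ * x.1.1.1.1) = x.1.1.1.1 := mul_inv_cancel_left _ _
    have h4 : cu K R mu * ((cu K R mu)⁻¹ * x.1.1.1.2) = x.1.1.1.2 := mul_inv_cancel_left _ _
    simp only [h2]
    change _ = algebraMap K R κ * (((cu K R lam * ((cu K R lam)⁻¹ * x.1.1.1.1)) ^ C' *
      (cu K R mu * ((cu K R mu)⁻¹ * x.1.1.1.2)) ^ E : Rˣ) : R)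
    rw [h3, h4]
    exact h1⟩
  inv {R} _ _ y := ⟨((ftScale h).inv y.1.1, fun i => algebraMap K R (dd i : K) *
      (show R from y.1.2 i)),
    (sq_iff hd he hκ _ _ _).2 ((@cn_val k _ A B C' E m δ ε R _ (down k K R) _ _).1 y.2)⟩
  inv_hom {R} _ _ x := by
    refine Subtype.ext (Prod.ext ((ftScale h).inv_hom x.1.1) (funext fun i => ?_))
    change algebraMap K R (dd i : K) * (algebraMap K R ((dd i)⁻¹ : Kˣ) * x.1.2 i) = x.1.2 i
    rw [← mul_assoc, ← map_mul, ← Units.val_mul, mul_inv_cancel, Units.val_one, map_one, one_mul]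
  hom_inv {R} _ _ y := by
    refine Subtype.ext (Prod.ext ((ftScale h).hom_inv y.1.1) (funext fun i => ?_))
    change algebraMap K R ((dd i)⁻¹ : Kˣ) * (algebraMap K R (dd i : K) * (show R from y.1.2 i)) =
      y.1.2 i
    rw [← mul_assoc, ← map_mul, ← Units.val_mul, inv_mul_cancel, Units.val_one, map_one, one_mul]
  nat {R S} _ _ _ _ f x := by
    refine Subtype.ext (Prod.ext ((ftScale h).nat f x.1.1) (funext fun i => ?_))
    change f (algebraMap K R ((dd i)⁻¹ : Kˣ) * x.1.2 i) = algebraMap K S ((dd i)⁻¹ : Kˣ) *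
      f (x.1.2 i)
    rw [map_mul, f.commutes]

end

end Pool.Agent.Helper9.TQ2
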