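import Pool.Agent.Helper9.TQ2.Pair

/-!
# Two quadratic polynomials and a constant: the fibration of the family over the torus
-/

set_option autoImplicit false

namespace Pool.Agent.Helper9.TQ2

open Pool.Agent.Helper29.CQ Pool.Agent.Helper65.CC Pool.Agent.Helper87.CC
  Pool.Agent.Helper65.CC.KFn
open Pool.Agent.Helper29.PF (pw pwZero pwSucc rp_pw Zf rep_Zf mem_Zf Pk kops ftZ char0 SQ QJ SqMem
  qjoin)
open Pool.Agent.Helper67.TQ
open MvPolynomial (X C)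

variable {p : ℕ} {P : ∀ (A : Type) [CommRing A], Prop}

section

variable {k : Type} [Field k] {K : Type} [Field K] [Algebra k K] {N : ℕ}
  (q : Fin 3 → MvPolynomial (Fin N) k) (ε : Fin 3 → k) (a b : Fin 3 → ℕ)

/-- the points of the fibre over `c0` lie over the curve -/
theorem rho_iff {c0 : Kˣ} {R : Type} [CommRing R] [Algebra K R]
    (x : (ext K (VV (F := AF k N) (fun l => vC (q l)) ε a b)).obj R) :
    (subC (extC K (rhoC q ε a b)) (c0 : K)).val x = 0 ↔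
      (@zr k _ N q ε a b R _ (down k K R) x).1 ^ ((a 1 : ℤ) - a 0) *
        (@zr k _ N q ε a b R _ (down k K R) x).2 ^ ((b 1 : ℤ) - b 0) = cu K R c0 := by
  change (((@zr k _ N q ε a b R _ (down k K R) x).1 ^ ((a 1 : ℤ) - a 0) *
        (@zr k _ N q ε a b R _ (down k K R) x).2 ^ ((b 1 : ℤ) - b 0) : Rˣ) : R) -
          algebraMap K R (c0 : K) = 0 ↔ _
  rw [sub_eq_zero]
  exact (Units.ext_iff (u := (@zr k _ N q ε a b R _ (down k K R) x).1 ^ ((a 1 : ℤ) - a 0) *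
        (@zr k _ N q ε a b R _ (down k K R) x).2 ^ ((b 1 : ℤ) - b 0)) (v := cu K R c0)).symm

theorem zr_vvMk {R : Type} [CommRing R] [Algebra k R] (z r : Rˣ) (y : Fin N → R)
    (h : (z : R) ^ a 0 * (r : R) ^ b 0 *
        (algebraMap k R (ε 0) * MvPolynomial.aeval (R := k) y (q 0)) +
      (z : R) ^ a 1 * (r : R) ^ b 1 *
        (algebraMap k R (ε 1) * MvPolynomial.aeval (R := k) y (q 1)) +
      (z : R) ^ a 2 * (r : R) ^ b 2 *
        (algebraMap k R (ε 2) * MvPolynomial.aeval (R := k) y (q 2)) = 0) :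
    zr q ε a b (vvMk q ε a b z r y h) = (z, r) := Prod.ext (Units.ext rfl) (Units.ext rfl)

theorem rho_mk {c0 : Kˣ} {R : Type} [CommRing R] [Algebra K R] (z r : Rˣ) (y : Fin N → R)
    (h : (z : R) ^ a 0 * (r : R) ^ b 0 * (@algebraMap k R _ _ (down k K R) (ε 0) *
        @MvPolynomial.aeval k R (Fin N) _ _ (down k K R) y (q 0)) +
      (z : R) ^ a 1 * (r : R) ^ b 1 * (@algebraMap k R _ _ (down k K R) (ε 1) *
        @MvPolynomial.aeval k R (Fin N) _ _ (down k K R) y (q 1)) +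
      (z : R) ^ a 2 * (r : R) ^ b 2 * (@algebraMap k R _ _ (down k K R) (ε 2) *
        @MvPolynomial.aeval k R (Fin N) _ _ (down k K R) y (q 2)) = 0)
    (hzr : z ^ ((a 1 : ℤ) - a 0) * r ^ ((b 1 : ℤ) - b 0) = cu K R c0) :
    (subC (extC K (rhoC q ε a b)) (c0 : K)).val
      (@vvMk k _ N q ε a b R _ (down k K R) z r y h) = 0 := by
  refine (rho_iff q ε a b _).2 ?_
  rw [@zr_vvMk k _ N q ε a b R _ (down k K R)]
  exact hzr

variable {q}

theorem q2_val {κ : k} (hκ : q 2 = C κ) {R : Type} [CommRing R] [Algebra K R] (y : Fin N → R) :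
    @MvPolynomial.aeval k R (Fin N) _ _ (down k K R) y (q 2) =
      algebraMap K R (algebraMap k K κ) := by
  rw [hκ]
  exact @MvPolynomial.aeval_C k R (Fin N) _ _ (down k K R) _ κ

theorem qj_eq {κ : k} (hκ : q 2 = C κ) {c0 : Kˣ} {R : Type} [CommRing R] [Algebra K R]
    (z r : Rˣ) (hzr : z ^ ((a 1 : ℤ) - a 0) * r ^ ((b 1 : ℤ) - b 0) = cu K R c0) (y : Fin N → R) :
    ((z : R) ^ a 0 * (r : R) ^ b 0 * (@algebraMap k R _ _ (down k K R) (ε 0) *
        @MvPolynomial.aeval k R (Fin N) _ _ (down k K R) y (q 0)) +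
      (z : R) ^ a 1 * (r : R) ^ b 1 * (@algebraMap k R _ _ (down k K R) (ε 1) *
        @MvPolynomial.aeval k R (Fin N) _ _ (down k K R) y (q 1)) +
      (z : R) ^ a 2 * (r : R) ^ b 2 * (@algebraMap k R _ _ (down k K R) (ε 2) *
        @MvPolynomial.aeval k R (Fin N) _ _ (down k K R) y (q 2)) = 0) ↔
    MvPolynomial.aeval (R := K) y (memb q ε (c0 : K)) =
      algebraMap K R (-(algebraMap k K (ε 2) * algebraMap k K κ)) *
        ((z ^ ((a 2 : ℤ) - a 0) * r ^ ((b 2 : ℤ) - b 0) : Rˣ) : R) := by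
  rw [q2_val hκ]
  exact fib_iff q ε a b z r hzr y

/-- **the fibres** -/
noncomputable def fibIso {κ : k} (hκ : q 2 = C κ) (c0 : Kˣ) :
    Iso ((ext K (VV (F := AF k N) (fun l => vC (q l)) ε a b)).cls
      (subC (extC K (rhoC q ε a b)) (c0 : K)))
      (QJ (vT (A := (a 1 : ℤ) - a 0) (B := (b 1 : ℤ) - b 0) (c := c0)
        (-(algebraMap k K (ε 2) * algebraMap k K κ)) ((a 2 : ℤ) - a 0) ((b 2 : ℤ) - b 0))
        (memb q ε (c0 : K))) where
  hom {R} _ _ x := ⟨(⟨@zr k _ N q ε a b R _ (down k K R) x.1, (rho_iff q ε a b x.1).1 x.2⟩,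
    @yv k _ N q ε a b R _ (down k K R) x.1),
    (qj_eq ε a b hκ _ _ ((rho_iff q ε a b x.1).1 x.2) _).1
      (@vv_eq' k _ N q ε a b R _ (down k K R) x.1)⟩
  inv {R} _ _ y := ⟨@vvMk k _ N q ε a b R _ (down k K R) y.1.1.1.1 y.1.1.1.2 y.1.2
    ((qj_eq ε a b hκ _ _ y.1.1.2 _).2 y.2), rho_mk q ε a b _ _ _ _ y.1.1.2⟩
  inv_hom {R} _ _ x := rfl
  hom_inv {R} _ _ y := Subtype.ext (Prod.ext (Subtype.ext
    (@zr_vvMk k _ N q ε a b R _ (down k K R) y.1.1.1.1 y.1.1.1.2 y.1.2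
      ((qj_eq ε a b hκ _ _ y.1.1.2 _).2 y.2))) rfl)
  nat {R S} _ _ _ _ f x := Subtype.ext (Prod.ext (Subtype.ext (Prod.ext (Units.ext rfl)
    (Units.ext rfl))) rfl)

end

end Pool.Agent.Helper9.TQ2
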