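import Pool.Agent.Helper9.TQ2.Fib

/-!
# Two quadratic polynomials and a constant: the families
-/

set_option autoImplicit false

namespace Pool.Agent.Helper9.TQ2

open Pool.Agent.Helper29.CQ Pool.Agent.Helper65.CC Pool.Agent.Helper87.CC
  Pool.Agent.Helper65.CC.KFn
open Pool.Agent.Helper29.PF (pw pwZero pwSucc rp_pw Zf rep_Zf mem_Zf Pk kops ftZ char0 SQ QJ SqMem
  qjoin)
open Pool.Agent.Helper67.TQ
open MvPolynomial (X C)

variable {p : ℕ} {P : ∀ (A : Type) [CommRing A], Prop} {k : Type} [Field k] {N : ℕ}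

theorem two_ne' (hp : p.Prime) (hp2 : p ≠ 2) {K : Type} [Field K] [CharP K p] : (2 : K) ≠ 0 := by
  intro h2
  have h3 : ((2 : ℕ) : K) = 0 := by exact_mod_cast h2
  have h4 := (CharP.cast_eq_zero_iff K p 2).1 h3
  exact hp2 ((Nat.prime_dvd_prime_iff_eq hp Nat.prime_two).1 h4)

/-- the family over the torus, the last polynomial is constant -/
theorem vv_mem2 [Finite k] [CharP k p] (hp : p.Prime) (hp2 : p ≠ 2) (hP : FormalClass p P)
    {q : Fin 3 → MvPolynomial (Fin N) k} (hq : ∀ l, (q l).totalDegree ≤ 2) {κ : k} (hκ0 : κ ≠ 0)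
    (hκ : q 2 = C κ) {ε : Fin 3 → k} (hε : ∀ l, ε l ≠ 0) {a b : Fin 3 → ℕ} (hab : Ind a b) :
    (VV (F := AF k N) (fun l => vC (q l)) ε a b).Mem (Pk P k) := by
  have hk : (p : k) = 0 := CharP.cast_eq_zero k p
  refine mem_fibration hp hP (rhoC q ε a b) fun K _ _ _ _ G hG hW c => ?_
  by_cases hc : c = 0
  · refine Mem.of_trivial hG.toKOps fun R _ _ x => ?_
    have h1 : ((((@zr k _ N q ε a b R _ (down k K R) x.1).1 ^ ((a 1 : ℤ) - a 0) *
        (@zr k _ N q ε a b R _ (down k K R) x.1).2 ^ ((b 1 : ℤ) - b 0) : Rˣ) : R)) = 0 :=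
      (sub_eq_zero.1 x.2).trans ((congrArg (algebraMap K R) hc).trans (map_zero _))
    have h2 := Units.isUnit ((@zr k _ N q ε a b R _ (down k K R) x.1).1 ^ ((a 1 : ℤ) - a 0) *
        (@zr k _ N q ε a b R _ (down k K R) x.1).2 ^ ((b 1 : ℤ) - b 0) : Rˣ)
    rw [h1] at h2
    exact subsingleton_of_zero_eq_one (isUnit_zero_iff.1 h2)
  · have hD : ((a 1 : ℤ) - a 0) * ((b 2 : ℤ) - b 0) - ((a 2 : ℤ) - a 0) * ((b 1 : ℤ) - b 0) ≠ 0 := by
      intro h
      apply hab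
      linear_combination h
    have hne : ¬ (a 1 = a 0 ∧ b 1 = b 0) := by
      rintro ⟨h1, h2⟩
      apply hD
      rw [h1, h2]
      ring
    have hκ' : -(algebraMap k K (ε 2) * algebraMap k K κ) ≠ 0 := by
      rw [neg_ne_zero, ← map_mul]
      exact (map_ne_zero (algebraMap k K)).2 (mul_ne_zero (hε 2) hκ0)
    have h3 := sq_mem hp hP hk hG.toKOps hW hD (Units.mk0 c hc) hκ'
    obtain ⟨lam, mu, h1, -⟩ := exists_lm hD (Units.mk0 c hc) 1
    have hrp := rp_ft (k := k) hne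
    have hrp' : Rp (FT ((a 1 : ℤ) - a 0) ((b 1 : ℤ) - b 0) (Units.mk0 c hc)) :=
      Rp.iso (F := ext K (FT ((a 1 : ℤ) - a 0) ((b 1 : ℤ) - b 0) (1 : kˣ))) (ftScale h1).symm
    exact Mem.of_iso (fibIso ε a b hκ (Units.mk0 c hc)) (qjoin hG.toKOps N (Or.inl (two_ne' hp hp2)) _ h3 _
      (memb_deg q ε hq _))

/-- permutations -/
theorem nn_perm {F : KFn k} {Q : Fin 3 → Coord F} (u : Polynomial (Polynomial k)) (ε : Fin 3 → k)
    (a b : Fin 3 → ℕ) (σ : Equiv.Perm (Fin 3))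
    (h : (NN (F := F) (fun i => Q (σ i)) u (ε ∘ σ) (a ∘ σ) (b ∘ σ)).Mem (Pk P k)) :
    (NN Q u ε a b).Mem (Pk P k) := by
  refine Mem.of_iso ?_ h
  have key : ∀ {R : Type} [CommRing R] [Algebra k R] (x : (PL F u).obj R),
      (eqn Q u ε a b).val x = (eqn (fun i => Q (σ i)) u (ε ∘ σ) (a ∘ σ) (b ∘ σ)).val x := by
    intro R _ _ x
    exact (Equiv.sum_comp σ fun l => algebraMap k R (ε l) *
      x.1.1.2 ^ a l * x.1.2 ^ b l * (Q l).val x.1.1.1).symm
  exact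
    { hom := fun x => ⟨x.1, (key x.1).symm.trans x.2⟩
      inv := fun y => ⟨y.1, (key y.1).trans y.2⟩
      inv_hom := fun _ => rfl
      hom_inv := fun _ => rfl
      nat := fun _ _ => rfl }

/-- the family over the torus -/
theorem vv_mem [Finite k] [CharP k p] (hp : p.Prime) (hp2 : p ≠ 2) (hP : FormalClass p P)
    {q : Fin 3 → MvPolynomial (Fin N) k} (hq : ∀ l, (q l).totalDegree ≤ 2) {e : Fin 3} {κ : k}
    (hκ0 : κ ≠ 0) (hκ : q e = C κ) {ε : Fin 3 → k} (hε : ∀ l, ε l ≠ 0) {a b : Fin 3 → ℕ}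
    (hab : Ind a b) : (VV (F := AF k N) (fun l => vC (q l)) ε a b).Mem (Pk P k) := by
  refine nn_perm _ ε a b (Equiv.swap 2 e) ?_
  refine vv_mem2 hp hp2 hP (q := fun l => q (Equiv.swap 2 e l)) (fun l => hq _) hκ0 ?_
    (fun l => hε _) (ind_perm hab _)
  rw [Equiv.swap_apply_left]
  exact hκ

end Pool.Agent.Helper9.TQ2
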