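import Pool.Agent.Helper9.TQ2.Cst
import Pool.Agent.Helper67.TQ.Geo3

/-!
# Two quadratic polynomials and a constant: the family over the torus
-/

set_option autoImplicit false

namespace Pool.Agent.Helper9.TQ2

open Pool.Agent.Helper29.CQ Pool.Agent.Helper65.CC Pool.Agent.Helper87.CC
  Pool.Agent.Helper65.CC.KFn
open Pool.Agent.Helper29.PF (pw pwZero pwSucc rp_pw Zf rep_Zf mem_Zf Pk kops ftZ char0 SQ QJ SqMem
  qjoin)
open Pool.Agent.Helper67.TQ
open MvPolynomial (X C)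

variable {p : ℕ} {P : ∀ (A : Type) [CommRing A], Prop}

theorem rp_ft {k : Type} [Field k] {a b a' b' : ℕ} (h : ¬ (a = a' ∧ b = b')) :
    Rp (FT ((a : ℤ) - a') ((b : ℤ) - b') (1 : kˣ)) := by
  obtain ⟨A, _, _, pt, h1, h2, -⟩ := ft_rep (K := k) h
  exact ⟨A, _, _, pt, h1, h2⟩

section

variable {K : Type} [Field K] [IsAlgClosed K]

theorem root_z {D : ℤ} (hD : D ≠ 0) (x : Kˣ) : ∃ y : Kˣ, y ^ D = x := by
  have hn : 0 < D.natAbs := Int.natAbs_pos.2 hD
  have key : ∀ x : Kˣ, ∃ y : Kˣ, y ^ D.natAbs = x := by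
    intro x
    obtain ⟨y, hy⟩ := IsAlgClosed.exists_pow_nat_eq (x : K) hn
    have hy0 : y ≠ 0 := by
      rintro rfl
      rw [zero_pow hn.ne'] at hy
      exact x.ne_zero hy.symm
    exact ⟨Units.mk0 y hy0, Units.ext (by rw [Units.val_pow_eq_pow_val, Units.val_mk0, hy])⟩
  rcases Int.natAbs_eq D with h | h
  · obtain ⟨y, hy⟩ := key x
    refine ⟨y, ?_⟩
    rw [h, zpow_natCast, hy]
  · obtain ⟨y, hy⟩ := key x⁻¹
    refine ⟨y, ?_⟩
    rw [h, zpow_neg, zpow_natCast, hy, inv_inv]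

theorem exists_lm {A B C' E : ℤ} (hD : A * E - C' * B ≠ 0) (x y : Kˣ) :
    ∃ lam mu : Kˣ, lam ^ A * mu ^ B = x ∧ lam ^ C' * mu ^ E = y := by
  obtain ⟨α, hα⟩ := root_z hD x
  obtain ⟨β, hβ⟩ := root_z hD y
  refine ⟨α ^ E * β ^ (-B), α ^ (-C') * β ^ A, ?_, ?_⟩
  · rw [mul_zpow, mul_zpow, ← zpow_mul, ← zpow_mul, ← zpow_mul, ← zpow_mul, mul_mul_mul_comm,
      ← zpow_add, ← zpow_add]
    have e1 : E * A + -C' * B = A * E - C' * B := by ring
    have e2 : -B * A + A * B = 0 := by ring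
    rw [e1, e2, zpow_zero, mul_one, hα]
  · rw [mul_zpow, mul_zpow, ← zpow_mul, ← zpow_mul, ← zpow_mul, ← zpow_mul, mul_mul_mul_comm,
      ← zpow_add, ← zpow_add]
    have e1 : E * C' + -C' * E = 0 := by ring
    have e2 : -B * C' + A * E = A * E - C' * B := by ring
    rw [e1, e2, zpow_zero, one_mul, hβ]

/-- **the sums of squares over the curves** -/
theorem sq_mem {k : Type} [Field k] [Finite k] [Algebra k K] (hp : p.Prime) (hP : FormalClass p P)
    (hk : (p : k) = 0) {G : ∀ (R : Type) [CommRing R] [Algebra K R], Prop} (hG : KOps K G)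
    (hW : CstP P G) {a b a' b' : ℕ} {C' E : ℤ}
    (hD : ((a : ℤ) - a') * E - C' * ((b : ℤ) - b') ≠ 0) (c0 : Kˣ) {κ : K} (hκ : κ ≠ 0) :
    SqMem G (vT (A := (a : ℤ) - a') (B := (b : ℤ) - b') (c := c0) κ C' E) := by
  classical
  have hab : ¬ (a = a' ∧ b = b') := by
    rintro ⟨rfl, rfl⟩
    exact hD (by ring)
  have hrp := rp_ft (k := k) hab
  constructor
  · obtain ⟨lam, mu, h1, -⟩ := exists_lm hD c0 1
    exact Mem.of_iso (ftScale (k := k) h1) (CstP.mem hG hW (ft_mem hP hk hab))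
  · intro m c e
    obtain ⟨e', ε, he⟩ : ∃ (e' : Kˣ) (ε : k), e = e' * algebraMap k K ε := by
      by_cases h0 : e = 0
      · exact ⟨1, 0, by rw [h0, map_zero, mul_zero]⟩
      · exact ⟨Units.mk0 e h0, 1, by rw [map_one, mul_one, Units.val_mk0]⟩
    have hd : ∀ i, ∃ (d : Kˣ) (δ : k), c i * (d : K) ^ 2 = e' * algebraMap k K δ := by
      intro i
      by_cases h0 : c i = 0
      · exact ⟨1, 0, by rw [h0, map_zero, mul_zero, zero_mul]⟩
      · obtain ⟨d, hd⟩ := root_z (K := K) (D := 2) two_ne_zero (e' * (Units.mk0 (c i) h0)⁻¹)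
        refine ⟨d, 1, ?_⟩
        have h1 := congrArg Units.val hd
        rw [Units.val_mul, Units.val_inv_eq_inv_val, Units.val_mk0] at h1
        have h2 : ((d ^ (2 : ℤ) : Kˣ) : K) = (d : K) ^ 2 := by
          rw [Units.val_zpow_eq_zpow_val]
          exact_mod_cast rfl
        rw [← h2, h1, map_one, mul_one, mul_comm (e' : K), mul_inv_cancel_left₀ h0]
    choose dd δ hd using hd
    obtain ⟨lam, mu, h1, h2⟩ := exists_lm hD c0 (e' * (Units.mk0 κ hκ)⁻¹)
    have h3 : κ * ((lam ^ C' * mu ^ E : Kˣ) : K) = e' := by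
      rw [h2, Units.val_mul, Units.val_inv_eq_inv_val, Units.val_mk0, mul_comm (e' : K),
        mul_inv_cancel_left₀ hκ]
    have : Rp (CN ((a : ℤ) - a') ((b : ℤ) - b') C' E δ ε) := by
      unfold CN
      infer_instance
    exact Mem.of_iso (sqScale h1 hd he h3) (CstP.mem hG hW (cn_mem hp hP hk hab C' E δ ε))

end

/-! ### The fibration -/

/-- the equation divided by its first coefficient -/
theorem div_iff {R : Type} [CommRing R] (z r : Rˣ) (a b : Fin 3 → ℕ) (u0 u1 u2 : R) :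
    (z : R) ^ a 0 * (r : R) ^ b 0 * u0 + (z : R) ^ a 1 * (r : R) ^ b 1 * u1 +
      (z : R) ^ a 2 * (r : R) ^ b 2 * u2 = 0 ↔
    u0 + ((z ^ ((a 1 : ℤ) - a 0) * r ^ ((b 1 : ℤ) - b 0) : Rˣ) : R) * u1 =
      -u2 * ((z ^ ((a 2 : ℤ) - a 0) * r ^ ((b 2 : ℤ) - b 0) : Rˣ) : R) := by
  have key : ∀ l : Fin 3, (z : R) ^ a l * (r : R) ^ b l =
      ((z ^ a 0 * r ^ b 0 : Rˣ) : R) *
        ((z ^ ((a l : ℤ) - a 0) * r ^ ((b l : ℤ) - b 0) : Rˣ) : R) := by
    intro l
    rw [← Units.val_mul, mul_mul_mul_comm, zpow_sub, zpow_sub, zpow_natCast, zpow_natCast,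
      zpow_natCast, zpow_natCast]
    have h1 : z ^ a 0 * (z ^ a l * (z ^ a 0)⁻¹) = z ^ a l := by
      rw [mul_comm (z ^ a l), mul_inv_cancel_left]
    have h2 : r ^ b 0 * (r ^ b l * (r ^ b 0)⁻¹) = r ^ b l := by
      rw [mul_comm (r ^ b l), mul_inv_cancel_left]
    rw [h1, h2]
    push_cast
    rfl
  have h0 : (z : R) ^ a 0 * (r : R) ^ b 0 = ((z ^ a 0 * r ^ b 0 : Rˣ) : R) := by
    push_cast
    rfl
  rw [key 1, key 2, h0]
  generalize ((z ^ ((a 1 : ℤ) - a 0) * r ^ ((b 1 : ℤ) - b 0) : Rˣ) : R) = x1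
  generalize ((z ^ ((a 2 : ℤ) - a 0) * r ^ ((b 2 : ℤ) - b 0) : Rˣ) : R) = x2
  have h3 : ((z ^ a 0 * r ^ b 0 : Rˣ) : R) * u0 + ((z ^ a 0 * r ^ b 0 : Rˣ) : R) * x1 * u1 +
      ((z ^ a 0 * r ^ b 0 : Rˣ) : R) * x2 * u2 =
      ((z ^ a 0 * r ^ b 0 : Rˣ) : R) * (u0 + x1 * u1 + x2 * u2) := by ring
  rw [h3, Units.mul_right_eq_zero]
  constructor
  · intro h
    linear_combination h
  · intro h
    linear_combination h

section

variable {k : Type} [Field k] {N : ℕ} (q : Fin 3 → MvPolynomial (Fin N) k) (ε : Fin 3 → k)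
  (a b : Fin 3 → ℕ)

/-- the units `z`, `r` -/
noncomputable def zr {R : Type} [CommRing R] [Algebra k R]
    (x : (VV (F := AF k N) (fun l => vC (q l)) ε a b).obj R) : Rˣ × Rˣ :=
  ((vv_unit _ ε a b x).1.unit, (vv_unit _ ε a b x).2.unit)

/-- the ratio of the first two coefficients -/
noncomputable def rhoC : Coord (VV (F := AF k N) (fun l => vC (q l)) ε a b) where
  val {R} _ _ x := (((zr q ε a b x).1 ^ ((a 1 : ℤ) - a 0) *
    (zr q ε a b x).2 ^ ((b 1 : ℤ) - b 0) : Rˣ) : R)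
  nat {R S} _ _ _ _ f x := by
    have h1 : um f (zr q ε a b x).1 = (zr q ε a b
        ((VV (F := AF k N) (fun l => vC (q l)) ε a b).map f x)).1 := Units.ext rfl
    have h2 : um f (zr q ε a b x).2 = (zr q ε a b
        ((VV (F := AF k N) (fun l => vC (q l)) ε a b).map f x)).2 := Units.ext rfl
    rw [← h1, ← h2, ← map_zpow, ← map_zpow, ← map_mul]
    rfl

end

section

variable {k : Type} [Field k] {N : ℕ} (q : Fin 3 → MvPolynomial (Fin N) k) (ε : Fin 3 → k)
  (a b : Fin 3 → ℕ)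

/-- the point of the affine space -/
def yv {R : Type} [CommRing R] [Algebra k R]
    (x : (VV (F := AF k N) (fun l => vC (q l)) ε a b).obj R) : Fin N → R := x.1.1.1.1

theorem vv_eq' {R : Type} [CommRing R] [Algebra k R]
    (x : (VV (F := AF k N) (fun l => vC (q l)) ε a b).obj R) :
    (((zr q ε a b x).1 : Rˣ) : R) ^ a 0 * (((zr q ε a b x).2 : Rˣ) : R) ^ b 0 *
        (algebraMap k R (ε 0) * MvPolynomial.aeval (R := k) (yv q ε a b x) (q 0)) +
      (((zr q ε a b x).1 : Rˣ) : R) ^ a 1 * (((zr q ε a b x).2 : Rˣ) : R) ^ b 1 *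
        (algebraMap k R (ε 1) * MvPolynomial.aeval (R := k) (yv q ε a b x) (q 1)) +
      (((zr q ε a b x).1 : Rˣ) : R) ^ a 2 * (((zr q ε a b x).2 : Rˣ) : R) ^ b 2 *
        (algebraMap k R (ε 2) * MvPolynomial.aeval (R := k) (yv q ε a b x) (q 2)) = 0 := by
  have h1 := vv_eq (F := AF k N) (fun l => vC (q l)) ε a b x
  rw [Fin.sum_univ_three] at h1
  have h2 : ∀ l, vt (F := AF k N) (fun l => vC (q l)) ε a b x.1.1.1.2 x.1.1.2 x.1.1.1.1 l =
      (((zr q ε a b x).1 : Rˣ) : R) ^ a l * (((zr q ε a b x).2 : Rˣ) : R) ^ b l *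
        (algebraMap k R (ε l) * MvPolynomial.aeval (R := k) (yv q ε a b x) (q l)) := by
    intro l
    change algebraMap k R (ε l) * (((zr q ε a b x).1 : Rˣ) : R) ^ a l *
      (((zr q ε a b x).2 : Rˣ) : R) ^ b l *
        MvPolynomial.aeval (R := k) (yv q ε a b x) (q l) = _
    ring
  rw [h2, h2, h2] at h1
  exact h1

/-- the point with given coordinates -/
noncomputable def vvMk {R : Type} [CommRing R] [Algebra k R] (z r : Rˣ) (y : Fin N → R)
    (h : (z : R) ^ a 0 * (r : R) ^ b 0 *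
        (algebraMap k R (ε 0) * MvPolynomial.aeval (R := k) y (q 0)) +
      (z : R) ^ a 1 * (r : R) ^ b 1 *
        (algebraMap k R (ε 1) * MvPolynomial.aeval (R := k) y (q 1)) +
      (z : R) ^ a 2 * (r : R) ^ b 2 *
        (algebraMap k R (ε 2) * MvPolynomial.aeval (R := k) y (q 2)) = 0) :
    (VV (F := AF k N) (fun l => vC (q l)) ε a b).obj R :=
  ⟨⟨((y, (z : R)), (r : R)), by
    change IsUnit (ev2 (hzr k) (z : R) (r : R))
    rw [ev2_hzr]
    exact (r * z).isUnit⟩, by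
    change ∑ l, algebraMap k R (ε l) * (z : R) ^ a l * (r : R) ^ b l *
      MvPolynomial.aeval (R := k) y (q l) = 0
    rw [Fin.sum_univ_three, ← h]
    ring⟩

end

section

variable {k : Type} [Field k] {K : Type} [Field K] [Algebra k K] {N : ℕ}
  (q : Fin 3 → MvPolynomial (Fin N) k) (ε : Fin 3 → k) (a b : Fin 3 → ℕ)

/-- the member of the pencil -/
noncomputable def memb (c : K) : MvPolynomial (Fin N) K :=
  MvPolynomial.map (algebraMap k K) (C (ε 0) * q 0) +
    C c * MvPolynomial.map (algebraMap k K) (C (ε 1) * q 1)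

theorem aeval_dn (f : MvPolynomial (Fin N) k) {R : Type} [CommRing R] [Algebra K R]
    (y : Fin N → R) : @MvPolynomial.aeval k R (Fin N) _ _ (down k K R) y f =
      MvPolynomial.aeval (R := K) y (MvPolynomial.map (algebraMap k K) f) := by
  let _ : Algebra k R := down k K R
  rw [MvPolynomial.aeval_def, MvPolynomial.aeval_def, MvPolynomial.eval₂_map]
  rfl

theorem memb_val (c : K) {R : Type} [CommRing R] [Algebra K R] (y : Fin N → R) :
    MvPolynomial.aeval (R := K) y (memb q ε c) =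
      (algebraMap K R (algebraMap k K (ε 0)) *
        @MvPolynomial.aeval k R (Fin N) _ _ (down k K R) y (q 0)) +
      algebraMap K R c * (algebraMap K R (algebraMap k K (ε 1)) *
        @MvPolynomial.aeval k R (Fin N) _ _ (down k K R) y (q 1)) := by
  rw [aeval_dn, aeval_dn]
  unfold memb
  simp only [map_add, map_mul, MvPolynomial.map_C, MvPolynomial.aeval_C]

theorem memb_deg (hq : ∀ l, (q l).totalDegree ≤ 2) (c : K) : (memb q ε c).totalDegree ≤ 2 := by
  have h1 : ∀ l, (MvPolynomial.map (algebraMap k K) (C (ε l) * q l)).totalDegree ≤ 2 := by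
    intro l
    refine (Finset.sup_mono (MvPolynomial.support_map_subset _ _)).trans ?_
    refine (MvPolynomial.totalDegree_mul _ _).trans ?_
    rw [MvPolynomial.totalDegree_C, zero_add]
    exact hq l
  refine (MvPolynomial.totalDegree_add _ _).trans (max_le (h1 0) ?_)
  refine (MvPolynomial.totalDegree_mul _ _).trans ?_
  rw [MvPolynomial.totalDegree_C, zero_add]
  exact h1 1

/-- the equation of the fibre -/
theorem fib_iff {κ : k} {c0 : Kˣ} {R : Type} [CommRing R] [Algebra K R] (z r : Rˣ)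
    (h : z ^ ((a 1 : ℤ) - a 0) * r ^ ((b 1 : ℤ) - b 0) = cu K R c0) (y : Fin N → R) :
    ((z : R) ^ a 0 * (r : R) ^ b 0 *
        (algebraMap K R (algebraMap k K (ε 0)) *
          @MvPolynomial.aeval k R (Fin N) _ _ (down k K R) y (q 0)) +
      (z : R) ^ a 1 * (r : R) ^ b 1 *
        (algebraMap K R (algebraMap k K (ε 1)) *
          @MvPolynomial.aeval k R (Fin N) _ _ (down k K R) y (q 1)) +
      (z : R) ^ a 2 * (r : R) ^ b 2 * (algebraMap K R (algebraMap k K (ε 2)) *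
        algebraMap K R (algebraMap k K κ)) = 0) ↔
    MvPolynomial.aeval (R := K) y (memb q ε (c0 : K)) =
      algebraMap K R (-(algebraMap k K (ε 2) * algebraMap k K κ)) *
        ((z ^ ((a 2 : ℤ) - a 0) * r ^ ((b 2 : ℤ) - b 0) : Rˣ) : R) := by
  rw [div_iff z r a b, h, memb_val, map_neg, map_mul]
  rfl

end

end Pool.Agent.Helper9.TQ2
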