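import Pool.Agent.Helper9.TQ2.Main
import Pool.Agent.Helper67.TQ.Thm

/-!
# Two quadratic polynomials and a constant: the data
-/

set_option autoImplicit false

namespace Pool.Agent.Helper9.TQ2

open Pool.Agent.Helper29.CQ Pool.Agent.Helper65.CC Pool.Agent.Helper87.CC
  Pool.Agent.Helper65.CC.KFn
open Pool.Agent.Helper29.PF (pw pwZero pwSucc rp_pw Zf rep_Zf mem_Zf Pk kops ftZ char0 SQ QJ SqMem
  qjoin)
open Pool.Agent.Helper67.TQ
open MvPolynomial (C)
open Polynomial (X)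

variable {p : ℕ} {P : ∀ (A : Type) [CommRing A], Prop} {k : Type} [Field k] {N : ℕ}

theorem rep_A1 : (A1 k).Rep (Polynomial k) X := by
  intro R _ _ x
  refine ⟨Polynomial.aeval (show R from x), ?_, fun f hf => ?_⟩
  · change Polynomial.aeval (show R from x) X = x
    rw [Polynomial.aeval_X]
  · change f X = x at hf
    apply Polynomial.algHom_ext
    rw [hf, Polynomial.aeval_X]

theorem dim_A1 : ringKrullDim (Polynomial k) ≤ 1 := by
  rw [Polynomial.ringKrullDim_of_isNoetherianRing, ringKrullDim_eq_zero_of_field, zero_add]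

/-- `ε x ^ n 0 ^ m` -/
def moC {F : KFn k} (t : Coord F) (ε : k) (n m : ℕ) : Coord F where
  val {R} _ _ x := algebraMap k R ε * t.val x ^ n * (0 : R) ^ m
  nat f x := by
    rw [map_mul, map_mul, map_pow, map_pow, f.commutes, t.nat, map_zero]

/-- families over the line -/
theorem fq_A1 [Finite k] (hp : p.Prime) (hP : FormalClass p P) (hk : (p : k) = 0) {m : ℕ}
    (γ : Fin m → Coord (A1 k)) (q : Fin m → MvPolynomial (Fin N) k)
    (hq : ∀ l, (q l).totalDegree ≤ 2) : (FQ (A1 k) γ q).Mem (Pk P k) :=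
  fq_curve hp hP hk inferInstance rep_A1 dim_A1 γ q hq

/-- families over the punctured line -/
theorem fq_Gm [Finite k] (hp : p.Prime) (hP : FormalClass p P) (hk : (p : k) = 0) {m : ℕ}
    (γ : Fin m → Coord ((A1 k).opn (idL k))) (q : Fin m → MvPolynomial (Fin N) k)
    (hq : ∀ l, (q l).totalDegree ≤ 2) : (FQ ((A1 k).opn (idL k)) γ q).Mem (Pk P k) := by
  obtain ⟨b, hb⟩ := (rep_A1 (k := k)).opn (idL k)
  exact fq_curve hp hP hk (ft_away inferInstance _) hb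
    (Pool.Agent.Helper9.QP.dim_away _ dim_A1) γ q hq

/-- the coordinate `z` -/
noncomputable def nz {F : KFn k} (Q : Fin 3 → Coord F) (u : Polynomial (Polynomial k))
    (ε : Fin 3 → k) (a b : Fin 3 → ℕ) : Coord (NN Q u ε a b) :=
  ⟨fun x => x.1.1.1.2, fun _ _ => rfl⟩

/-- the coordinate `r` -/
noncomputable def nr {F : KFn k} (Q : Fin 3 → Coord F) (u : Polynomial (Polynomial k))
    (ε : Fin 3 → k) (a b : Fin 3 → ℕ) : Coord (NN Q u ε a b) :=
  ⟨fun x => x.1.1.2, fun _ _ => rfl⟩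

/-- the open part `z ≠ 0` -/
noncomputable def nzOpn {F : KFn k} (Q : Fin 3 → Coord F) (ε : Fin 3 → k) (a b : Fin 3 → ℕ) :
    Iso ((NN Q X ε a b).opn (nz Q X ε a b)) (NN Q (hzr k) ε a b) where
  hom {R} _ _ x := ⟨⟨x.1.1.1, by
    have h1 : IsUnit (ev2 (X : Polynomial (Polynomial k)) x.1.1.1.1.2 x.1.1.1.2) := x.1.1.2
    rw [ev2_X] at h1
    change IsUnit (ev2 (hzr k) x.1.1.1.1.2 x.1.1.1.2)
    rw [ev2_hzr]
    exact h1.mul x.2⟩, x.1.2⟩
  inv {R} _ _ y := ⟨⟨⟨y.1.1, by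
    have h1 : IsUnit (ev2 (hzr k) y.1.1.1.2 y.1.1.2) := y.1.2
    rw [ev2_hzr] at h1
    change IsUnit (ev2 (X : Polynomial (Polynomial k)) y.1.1.1.2 y.1.1.2)
    rw [ev2_X]
    exact isUnit_of_mul_isUnit_left h1⟩, y.2⟩, by
    have h1 : IsUnit (ev2 (hzr k) y.1.1.1.2 y.1.1.2) := y.1.2
    rw [ev2_hzr] at h1
    exact isUnit_of_mul_isUnit_right h1⟩
  inv_hom _ := rfl
  hom_inv _ := rfl
  nat _ _ := rfl

/-- the open part `r ≠ 0` -/
noncomputable def nrOpn {F : KFn k} (Q : Fin 3 → Coord F) (ε : Fin 3 → k) (a b : Fin 3 → ℕ) :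
    Iso ((NN Q 1 ε a b).opn (nr Q 1 ε a b)) (NN Q X ε a b) where
  hom {R} _ _ x := ⟨⟨x.1.1.1, by
    change IsUnit (ev2 (X : Polynomial (Polynomial k)) x.1.1.1.1.2 x.1.1.1.2)
    rw [ev2_X]
    exact x.2⟩, x.1.2⟩
  inv {R} _ _ y := ⟨⟨⟨y.1.1, by
    change IsUnit (ev2 (1 : Polynomial (Polynomial k)) y.1.1.1.2 y.1.1.2)
    have h1 : ev2 (1 : Polynomial (Polynomial k)) y.1.1.1.2 y.1.1.2 = 1 := Polynomial.eval₂_one _ _
    rw [h1]
    exact isUnit_one⟩, y.2⟩, by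
    have h1 : IsUnit (ev2 (X : Polynomial (Polynomial k)) y.1.1.1.2 y.1.1.2) := y.1.2
    rw [ev2_X] at h1
    exact h1⟩
  inv_hom _ := rfl
  hom_inv _ := rfl
  nat _ _ := rfl

section

variable (q : Fin 3 → MvPolynomial (Fin N) k) (ε : Fin 3 → k) (a b : Fin 3 → ℕ)

/-- the closed part `z = 0` -/
noncomputable def nzCls : Iso ((NN (F := AF k N) (fun l => vC (q l)) X ε a b).cls
      (nz (F := AF k N) (fun l => vC (q l)) X ε a b))
    (FQ ((A1 k).opn (idL k)) (fun l => moC ⟨fun x => x.1, fun _ _ => rfl⟩ (ε l) (b l) (a l)) q) where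
  hom {R} _ _ x := ⟨(⟨x.1.1.1.2, by
    have h1 : IsUnit (ev2 (X : Polynomial (Polynomial k)) x.1.1.1.1.2 x.1.1.1.2) := x.1.1.2
    rw [ev2_X] at h1
    exact h1⟩, x.1.1.1.1.1), by
    have h1 : ∑ l, algebraMap k R (ε l) * x.1.1.1.1.2 ^ a l * x.1.1.1.2 ^ b l *
      MvPolynomial.aeval (R := k) (x.1.1.1.1.1 : Fin N → R) (q l) = 0 := x.1.2
    have h2 : x.1.1.1.1.2 = 0 := x.2
    rw [h2] at h1
    refine Eq.trans ?_ h1
    change ∑ l, algebraMap k R (ε l) * x.1.1.1.2 ^ b l * (0 : R) ^ a l *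
      MvPolynomial.aeval (R := k) (x.1.1.1.1.1 : Fin N → R) (q l) = _
    exact Finset.sum_congr rfl fun l _ => by ring⟩
  inv {R} _ _ y := ⟨⟨⟨((y.1.2, (0 : R)), y.1.1.1), by
    change IsUnit (ev2 (X : Polynomial (Polynomial k)) (0 : R) y.1.1.1)
    rw [ev2_X]
    exact y.1.1.2⟩, by
    have h1 : ∑ l, algebraMap k R (ε l) * (show R from y.1.1.1) ^ b l * (0 : R) ^ a l *
      MvPolynomial.aeval (R := k) (y.1.2 : Fin N → R) (q l) = 0 := y.2
    refine Eq.trans ?_ h1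
    change ∑ l, algebraMap k R (ε l) * (0 : R) ^ a l * (show R from y.1.1.1) ^ b l *
      MvPolynomial.aeval (R := k) (y.1.2 : Fin N → R) (q l) = _
    exact Finset.sum_congr rfl fun l _ => by ring⟩, rfl⟩
  inv_hom {R} _ _ x := by
    have h2 : x.1.1.1.1.2 = 0 := x.2
    exact Subtype.ext (Subtype.ext (Subtype.ext (Prod.ext (Prod.ext rfl h2.symm) rfl)))
  hom_inv _ := rfl
  nat {R S} _ _ _ _ f x := by
    refine Subtype.ext (Prod.ext (Subtype.ext rfl) rfl)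

/-- the closed part `r = 0` -/
noncomputable def nrCls : Iso ((NN (F := AF k N) (fun l => vC (q l)) 1 ε a b).cls
      (nr (F := AF k N) (fun l => vC (q l)) 1 ε a b))
    (FQ (A1 k) (fun l => moC (idL k) (ε l) (a l) (b l)) q) where
  hom {R} _ _ x := ⟨(x.1.1.1.1.2, x.1.1.1.1.1), by
    have h1 : ∑ l, algebraMap k R (ε l) * x.1.1.1.1.2 ^ a l * x.1.1.1.2 ^ b l *
      MvPolynomial.aeval (R := k) (x.1.1.1.1.1 : Fin N → R) (q l) = 0 := x.1.2
    have h2 : x.1.1.1.2 = 0 := x.2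
    rw [h2] at h1
    exact h1⟩
  inv {R} _ _ y := ⟨⟨⟨((y.1.2, y.1.1), (0 : R)), by
    change IsUnit (ev2 (1 : Polynomial (Polynomial k)) (show R from y.1.1) (0 : R))
    have h1 : ev2 (1 : Polynomial (Polynomial k)) (show R from y.1.1) (0 : R) = 1 :=
      Polynomial.eval₂_one _ _
    rw [h1]
    exact isUnit_one⟩, y.2⟩, rfl⟩
  inv_hom {R} _ _ x := by
    have h2 : x.1.1.1.2 = 0 := x.2
    exact Subtype.ext (Subtype.ext (Subtype.ext (Prod.ext rfl h2.symm)))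
  hom_inv _ := rfl
  nat {R S} _ _ _ _ f x := rfl

end

/-- **the data** -/
theorem td_pair [Finite k] [CharP k p] (hp : p.Prime) (hp2 : p ≠ 2) (hP : FormalClass p P)
    {q : Fin 3 → MvPolynomial (Fin N) k} (hq : ∀ l, (q l).totalDegree ≤ 2) {e : Fin 3} {κ : k}
    (hκ0 : κ ≠ 0) (hκ : q e = C κ) : TD P (F := AF k N) fun l => vC (q l) where
  f := af_f hP (CharP.cast_eq_zero k p) _
  c1 i := af_c1 hp hP (CharP.cast_eq_zero k p) _ (hq i)
  c2 i j _ := af_c2 hp hP (CharP.cast_eq_zero k p) _ _ (hq i) (hq j)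
  n3 h ε a b hh hε hab := by
    have hk : (p : k) = 0 := CharP.cast_eq_zero k p
    have hG := kops hP hk
    have h1 := vv_mem hp hp2 hP hq hκ0 hκ hε hab
    have h2 : (NN (F := AF k N) (fun l => vC (q l)) X ε a b).Mem (Pk P k) :=
      Mem.glue hG (nz (F := AF k N) (fun l => vC (q l)) X ε a b)
        (Mem.of_iso (nzOpn (F := AF k N) (fun l => vC (q l)) ε a b) h1)
        (Mem.of_iso (nzCls q ε a b) (fq_Gm hp hP hk _ _ hq))
    rcases hh with rfl | rfl | rfl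
    · exact Mem.glue hG (nr (F := AF k N) (fun l => vC (q l)) 1 ε a b)
        (Mem.of_iso (nrOpn (F := AF k N) (fun l => vC (q l)) ε a b) h2)
        (Mem.of_iso (nrCls q ε a b) (fq_A1 hp hP hk _ _ hq))
    · exact h2
    · exact h1

theorem tda_pair [Finite k] [CharP k p] (hp : p.Prime) (hp2 : p ≠ 2) (hP : FormalClass p P)
    {q : Fin 3 → MvPolynomial (Fin N) k} (hq : ∀ l, (q l).totalDegree ≤ 2) {e : Fin 3} {κ : k}
    (hκ0 : κ ≠ 0) (hκ : q e = C κ) : TDA P q := by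
  intro k' _ _ _
  have hch : CharP k' p := charP_of_injective_algebraMap (algebraMap k k').injective p
  refine td_pair hp hp2 hP (q := fun l => MvPolynomial.map (algebraMap k k') (q l)) (fun l => ?_)
    (e := e) (κ := algebraMap k k' κ) ((map_ne_zero _).2 hκ0) ?_
  · exact (Finset.sup_mono (MvPolynomial.support_map_subset _ _)).trans (hq l)
  · change MvPolynomial.map (algebraMap k k') (q e) = _
    rw [hκ, MvPolynomial.map_C]

/-- **two quadratic polynomials and a constant** -/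
theorem pair_forms [Finite k] [CharP k p] (hp : p.Prime) (hp2 : p ≠ 2)
    (hP : Pool.Agent.Helper9.TP.TriClass p P) {s t : ℕ} (hs : 0 < s) (ht : 0 < t)
    (f g h : MvPolynomial (Fin N) k) (hf : f.totalDegree ≤ 2) (hg : g.totalDegree ≤ 2)
    (hh : h.totalDegree ≤ 2) {κ : k} (hκ0 : κ ≠ 0) (hκ : f = C κ ∨ g = C κ ∨ h = C κ)
    {l : ℕ} (Φ : Fin l → MvPolynomial (Fin 2) k) {n : Fin l → ℕ} (hn : ∀ j, 0 < n j)
    (hΦ : ∀ j, (Φ j).IsHomogeneous (n j)) :
    P (MvPolynomial (Fin l × Fin 2) (MvPolynomial (Fin N) k) ⧸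
      Ideal.span {MvPolynomial.C (g ^ (s + t)) *
        MvPolynomial.map MvPolynomial.C (∑ j, MvPolynomial.rename (Prod.mk j) (Φ j)) -
        MvPolynomial.C (f ^ s * h ^ t)}) := by
  obtain ⟨e, he⟩ : ∃ e : Fin 3, (![f, g, h] : Fin 3 → MvPolynomial (Fin N) k) e = C κ := by
    rcases hκ with h1 | h1 | h1
    · exact ⟨0, h1⟩
    · exact ⟨1, h1⟩
    · exact ⟨2, h1⟩
  have hd : ∀ l, ((![f, g, h] : Fin 3 → MvPolynomial (Fin N) k) l).totalDegree ≤ 2 := by
    intro l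
    fin_cases l
    · exact hf
    · exact hg
    · exact hh
  exact td_forms hp hP (tda_pair hp hp2 hP.toFormalClass hd hκ0 he) hs ht Φ hn hΦ

end Pool.Agent.Helper9.TQ2
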