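import Pool.Agent.Helper9.TQ2.Base
import Pool.Agent.Helper67.CQ.Z
import Pool.Agent.Helper9.QP.Kum

/-!
# Curves on the torus
-/

set_option autoImplicit false

namespace Pool.Agent.Helper9.TQ2

open Pool.Agent.Helper29.CQ Pool.Agent.Helper65.CC Pool.Agent.Helper87.CC
  Pool.Agent.Helper65.CC.KFn
open Pool.Agent.Helper29.PF (pw pwZero pwSucc rp_pw Zf rep_Zf mem_Zf Pk kops ftZ char0)
open Pool.Agent.Helper67.TQ
open MvPolynomial (X C)

variable {p : ℕ} {P : ∀ (A : Type) [CommRing A], Prop} {K : Type} [Field K]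

/-- the homomorphism of the units -/
def um {R S : Type} [CommRing R] [CommRing S] [Algebra K R] [Algebra K S] (f : R →ₐ[K] S) :
    Rˣ →* Sˣ := Units.map (f : R →* S)

/-- the units of the base field -/
def cu (K : Type) [Field K] (R : Type) [CommRing R] [Algebra K R] : Kˣ →* Rˣ :=
  Units.map (algebraMap K R : K →* R)

theorem um_cu {R S : Type} [CommRing R] [CommRing S] [Algebra K R] [Algebra K S]
    (f : R →ₐ[K] S) (c : Kˣ) : um f (cu K R c) = cu K S c := Units.ext (f.commutes c)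

theorem um_id {R : Type} [CommRing R] [Algebra K R] (x : Rˣ) : um (AlgHom.id K R) x = x :=
  Units.ext rfl

theorem um_comp {R S T : Type} [CommRing R] [CommRing S] [CommRing T] [Algebra K R] [Algebra K S]
    [Algebra K T] (f : R →ₐ[K] S) (g : S →ₐ[K] T) (x : Rˣ) : um (g.comp f) x = um g (um f x) :=
  Units.ext rfl

/-- the curve `z ^ A r ^ B = c` on the torus -/
def FT (A B : ℤ) (c : Kˣ) : KFn K where
  obj R _ _ := {x : Rˣ × Rˣ // x.1 ^ A * x.2 ^ B = cu K R c}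
  map f x := ⟨(um f x.1.1, um f x.1.2), by
    rw [← map_zpow, ← map_zpow, ← map_mul, x.2, um_cu]⟩
  id_map x := Subtype.ext (Prod.ext (um_id _) (um_id _))
  comp_map f g x := Subtype.ext (Prod.ext (um_comp f g _) (um_comp f g _))

/-- characters -/
def chT {A B : ℤ} {c : Kˣ} (C E : ℤ) : Coord (FT (K := K) A B c) where
  val {R} _ _ x := ((x.1.1 ^ C * x.1.2 ^ E : Rˣ) : R)
  nat {R S} _ _ _ _ f x := by
    change f ((x.1.1 ^ C * x.1.2 ^ E : Rˣ) : R) = ((um f x.1.1 ^ C * um f x.1.2 ^ E : Sˣ) : S)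
    rw [← map_zpow, ← map_zpow, ← map_mul]
    rfl

/-- the equation of the curve -/
noncomputable def gT (K : Type) [Field K] (a b a' b' : ℕ) : MvPolynomial (Fin 2) K :=
  X 0 ^ a * X 1 ^ b - X 0 ^ a' * X 1 ^ b'

theorem mon_two (a b : ℕ) : (X 0 ^ a * X 1 ^ b : MvPolynomial (Fin 2) K) =
    MvPolynomial.monomial (Finsupp.equivFunOnFinite.symm ![a, b]) 1 := by
  rw [MvPolynomial.monomial_eq, Finsupp.prod_fintype _ _ (fun _ => pow_zero _), map_one, one_mul,
    Fin.prod_univ_two]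
  rfl

theorem gT_ne {a b a' b' : ℕ} (h : ¬ (a = a' ∧ b = b')) : gT K a b a' b' ≠ 0 := by
  intro h0
  rw [gT, mon_two, mon_two, sub_eq_zero] at h0
  have h1 := congrArg (MvPolynomial.coeff (Finsupp.equivFunOnFinite.symm ![a, b])) h0
  classical
  rw [MvPolynomial.coeff_monomial, MvPolynomial.coeff_monomial, if_pos rfl] at h1
  by_cases h2 : (Finsupp.equivFunOnFinite.symm ![a', b'] : Fin 2 →₀ ℕ) =
      Finsupp.equivFunOnFinite.symm ![a, b]
  · have h3 := Finsupp.equivFunOnFinite.symm.injective h2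
    exact h ⟨(congrFun h3 0).symm, (congrFun h3 1).symm⟩
  · rw [if_neg h2] at h1
    exact one_ne_zero h1

theorem ft_eq {R : Type} [CommRing R] [Algebra K R] {a b a' b' : ℕ} (z r : Rˣ) :
    z ^ ((a : ℤ) - a') * r ^ ((b : ℤ) - b') = cu K R 1 ↔
      (z : R) ^ a * (r : R) ^ b = (z : R) ^ a' * (r : R) ^ b' := by
  rw [map_one, zpow_sub, zpow_sub, zpow_natCast, zpow_natCast, zpow_natCast, zpow_natCast,
    mul_mul_mul_comm, ← mul_inv, mul_inv_eq_one]
  exact Units.ext_iff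

theorem gT_val {R : Type} [CommRing R] [Algebra K R] {a b a' b' : ℕ} (x : Fin 2 → R) :
    MvPolynomial.aeval (R := K) x (gT K a b a' b') = 0 ↔
      x 0 ^ a * x 1 ^ b = x 0 ^ a' * x 1 ^ b' := by
  unfold gT
  rw [map_sub, map_mul, map_mul, map_pow, map_pow, map_pow, map_pow, MvPolynomial.aeval_X,
    MvPolynomial.aeval_X, sub_eq_zero]

theorem xx_val {R : Type} [CommRing R] [Algebra K R] (x : Fin 2 → R) :
    MvPolynomial.aeval (R := K) x (X 0 * X 1) = x 0 * x 1 := by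
  rw [map_mul, MvPolynomial.aeval_X, MvPolynomial.aeval_X]

/-- the curve as a locally closed subscheme of the plane -/
noncomputable def ftIso (a b a' b' : ℕ) :
    Iso (((AF K 2).cls (vC (gT K a b a' b'))).opn (resC _ (vC (X 0 * X 1))))
      (FT ((a : ℤ) - a') ((b : ℤ) - b') (1 : Kˣ)) where
  hom {R} _ _ x := ⟨((isUnit_of_mul_isUnit_left (show IsUnit ((x.1.1 0 : R) * x.1.1 1) from by
      rw [← xx_val (K := K) (x.1.1 : Fin 2 → R)]
      exact x.2)).unit,
    (isUnit_of_mul_isUnit_right (show IsUnit ((x.1.1 0 : R) * x.1.1 1) from by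
      rw [← xx_val (K := K) (x.1.1 : Fin 2 → R)]
      exact x.2)).unit), (ft_eq _ _).2 ((gT_val (K := K) (x.1.1 : Fin 2 → R)).1 x.1.2)⟩
  inv {R} _ _ y := ⟨⟨![(y.1.1 : R), (y.1.2 : R)],
    (gT_val (K := K) (![(y.1.1 : R), (y.1.2 : R)] : Fin 2 → R)).2 ((ft_eq y.1.1 y.1.2).1 y.2)⟩, by
    change IsUnit (MvPolynomial.aeval (R := K) (![(y.1.1 : R), (y.1.2 : R)] : Fin 2 → R)
      (X 0 * X 1))
    rw [xx_val]
    exact (y.1.1 * y.1.2).isUnit⟩
  inv_hom {R} _ _ x := by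
    refine Subtype.ext (Subtype.ext (funext fun i => ?_))
    fin_cases i <;> rfl
  hom_inv {R} _ _ y := Subtype.ext (Prod.ext (Units.ext rfl) (Units.ext rfl))
  nat {R S} _ _ _ _ f x := Subtype.ext (Prod.ext (Units.ext rfl) (Units.ext rfl))

/-- the coordinate ring of the curve -/
theorem ft_rep {a b a' b' : ℕ} (h : ¬ (a = a' ∧ b = b')) :
    ∃ (A : Type) (_ : CommRing A) (_ : Algebra K A)
      (pt : (FT ((a : ℤ) - a') ((b : ℤ) - b') (1 : Kˣ)).obj A),
      Algebra.FiniteType K A ∧ (FT ((a : ℤ) - a') ((b : ℤ) - b') (1 : Kˣ)).Rep A pt ∧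
        ringKrullDim A ≤ 1 := by
  obtain ⟨b1, hb1⟩ := (rep_AF (k := K) 2).cls (vC (gT K a b a' b'))
  obtain ⟨b2, hb2⟩ := hb1.opn (resC _ (vC (X 0 * X 1)))
  refine ⟨_, _, _, _, ft_away (ft_quot inferInstance _) _, hb2.iso (ftIso a b a' b'), ?_⟩
  refine Pool.Agent.Helper9.QP.dim_away _ ?_
  have h1 : (vC (gT K a b a' b')).val (F := AF K 2) (R := MvPolynomial (Fin 2) K) X =
      gT K a b a' b' := by
    change MvPolynomial.aeval (R := K) X (gT K a b a' b') = _
    exact MvPolynomial.aeval_X_left_apply _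
  rw [h1]
  exact Pool.Agent.Helper67.CQ.dim_quot (gT_ne h)

end Pool.Agent.Helper9.TQ2
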